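import Pool.Agent.L0h38.GI.Stm3

/-!
# Project GI2, module LIN: the linear isomorphism between the infinite cyclic vertices (adapted from
helper55's module ZMT)
-/

set_option autoImplicit false

namespace Pool.Agent.L0h83.GI

open Pool.Agent.L0h38.GI Multiplicative

section

variable {V W : Type} {Γ : SimpleGraph V} {Δ : SimpleGraph W} {G : V → Type} {H : W → Type}
  [∀ v, Group (G v)] [∀ w, Group (H w)]

/-- generators of the infinite cyclic vertex groups -/
def gz (c : ∀ i : VZ G, G i.1 ≃* Multiplicative ℤ) (i : VZ G) : G i.1 := (c i).symm (ofAdd 1)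

/-- a homomorphism to `ℤ` is determined by the values at the generators -/
lemma hom_eq (hFAZ : S_FAZ) [Fintype (VZ G)] (hG : ∀ v, Ok3 (G v))
    (c : ∀ i : VZ G, G i.1 ≃* Multiplicative ℤ)
    (f : GrP Γ G →* Multiplicative ℤ) (y : GrP Γ G) :
    (f y).toAdd = ∑ i : VZ G, (f (inj Γ G i (gz c i))).toAdd * xi c y i := by
  classical
  obtain ⟨R, hR⟩ : ∃ R : GrP Γ G →* Multiplicative ℤ, ∀ y, R y = ofAdd
      (∑ i : VZ G, (f (inj Γ G i (gz c i))).toAdd * xi c y i) := by
    refine ⟨MonoidHom.mk' (fun y => ofAdd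
      (∑ i : VZ G, (f (inj Γ G i (gz c i))).toAdd * xi c y i)) ?_, fun y => rfl⟩
    intro a b
    rw [← ofAdd_add, ← Finset.sum_add_distrib]
    congr 1
    refine Finset.sum_congr rfl fun i _ => ?_
    unfold xi
    rw [map_mul, Pi.mul_apply, map_mul, toAdd_mul, mul_add]
  have key : f = R := by
    apply gp_ext
    intro v x
    rcases (hG v).1 with hFA | hZ
    · have h1 := hFAZ (G v) hFA (f.comp (inj Γ G v)) x
      have h2 := hFAZ (G v) hFA (R.comp (inj Γ G v)) x
      rw [MonoidHom.comp_apply] at h1 h2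
      rw [h1, h2]
    · rw [hR]
      apply toAdd.injective
      rw [toAdd_ofAdd, Finset.sum_eq_single (⟨v, hZ⟩ : VZ G)]
      · show _ = _ * (c (⟨v, hZ⟩ : VZ G) (toPi (inj Γ G v x) v)).toAdd
        rw [toPi_inj_same]
        have h3 : x = gz c (⟨v, hZ⟩ : VZ G) ^ (c (⟨v, hZ⟩ : VZ G) x).toAdd := by
          apply (c (⟨v, hZ⟩ : VZ G)).injective
          rw [map_zpow]
          unfold gz
          rw [MulEquiv.apply_symm_apply, ← ofAdd_zsmul, smul_eq_mul, mul_one, ofAdd_toAdd]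
        conv_lhs => rw [h3]
        rw [map_zpow, map_zpow, toAdd_zpow, smul_eq_mul, mul_comm]
      · intro b _ hb
        have h4 : toPi (inj Γ G v x) b = 1 :=
          toPi_inj_ne (fun h => hb (Subtype.ext h)) x
        unfold xi
        rw [h4, map_one, toAdd_one, mul_zero]
      · intro h
        exact absurd (Finset.mem_univ _) h
  have h5 := hR y
  rw [← key] at h5
  rw [h5, toAdd_ofAdd]

/-- the matrix of an isomorphism -/
noncomputable def TM (e : GrP Γ G ≃* GrP Δ H) (c : ∀ i : VZ G, G i.1 ≃* Multiplicative ℤ)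
    (d : ∀ j : VZ H, H j.1 ≃* Multiplicative ℤ) : Matrix (VZ H) (VZ G) ℤ :=
  fun j i => xi d (e (inj Γ G i (gz c i))) j

lemma TM_e (hFAZ : S_FAZ) [Fintype (VZ G)] (hG : ∀ v, Ok3 (G v)) (e : GrP Γ G ≃* GrP Δ H)
    (c : ∀ i : VZ G, G i.1 ≃* Multiplicative ℤ) (d : ∀ j : VZ H, H j.1 ≃* Multiplicative ℤ)
    (y : GrP Γ G) : xi d (e y) = (TM e c d).mulVec (xi c y) := by
  ext j
  exact hom_eq hFAZ hG c
    ((d j).toMonoidHom.comp ((Pi.evalMonoidHom H j.1).comp (toPi.comp e.toMonoidHom))) y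

lemma TM_mul (hFAZ : S_FAZ) [Fintype (VZ G)] [DecidableEq (VZ H)]
    (hG : ∀ v, Ok3 (G v)) (e : GrP Γ G ≃* GrP Δ H) (c : ∀ i : VZ G, G i.1 ≃* Multiplicative ℤ)
    (d : ∀ j : VZ H, H j.1 ≃* Multiplicative ℤ) : TM e c d * TM e.symm d c = 1 := by
  ext j j'
  rw [Matrix.mul_apply]
  have h := congrFun (TM_e hFAZ hG e c d (e.symm (inj Δ H j' (gz d j')))) j
  have h1 : ∑ i : VZ G, TM e c d j i * TM e.symm d c i j' =
      xi d (e (e.symm (inj Δ H j' (gz d j')))) j := h.symm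
  rw [h1, MulEquiv.apply_symm_apply]
  unfold xi
  by_cases hj : j = j'
  · subst hj
    rw [Matrix.one_apply_eq, toPi_inj_same]
    unfold gz
    rw [MulEquiv.apply_symm_apply, toAdd_ofAdd]
  · rw [Matrix.one_apply_ne hj, toPi_inj_ne (fun h => hj (Subtype.ext h)), map_one, toAdd_one]

lemma TM_adj (hHEI : S_HEI) (e : GrP Γ G ≃* GrP Δ H) (c : ∀ i : VZ G, G i.1 ≃* Multiplicative ℤ)
    (d : ∀ j : VZ H, H j.1 ≃* Multiplicative ℤ) (i k : VZ G) (hik : Γ.Adj i.1 k.1) (j l : VZ H)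
    (hjl : j ≠ l) (hn : ¬ Δ.Adj j.1 l.1) :
    TM e c d j i * TM e c d l k = TM e c d l i * TM e c d j k := by
  have h1 : Commute (e (inj Γ G i (gz c i))) (e (inj Γ G k (gz c k))) :=
    (inj_comm hik (gz c i) (gz c k)).map e
  have h2 := hHEI W Δ H j.1 l.1 (fun h => hjl (Subtype.ext h)) hn (d j).toMonoidHom
    (d l).toMonoidHom _ _ h1
  have h3 : TM e c d j i * TM e c d l k = TM e c d j k * TM e c d l i := h2
  rw [h3, mul_comm]

end

/-- **LIN** -/
theorem t_LIN (hHEI : S_HEI) (hFAZ : S_FAZ) : S_LIN := by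
  intro V W _ _ Γ Δ G H _ _ _ _ _ _ hG hH e c d
  exact ⟨{ T := TM e c d
           T' := TM e.symm d c
           h1 := TM_mul hFAZ hG e c d
           h2 := TM_mul hFAZ hH e.symm d c
           e1 := fun y => TM_e hFAZ hG e c d y
           e2 := fun y => TM_e hFAZ hH e.symm d c y
           a1 := fun i k hik j l hjl hn => TM_adj hHEI e c d i k hik j l hjl hn
           a2 := fun i k hik j l hjl hn => TM_adj hHEI e.symm d c i k hik j l hjl hn }⟩

end Pool.Agent.L0h83.GI
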